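import Pool.Agent.R456.Semi.Red

/-!
# MP_0bba66_co, Q1 (disproof)

The formula `f(k, N) = ⌊N ⌊N/k⌋ / k⌋` for all `N ≤ k ^ 2` is false: for `k = 6`, `N = 20` the formula
gives `10`, but `f(6, 20) = 9`.

The two disjoint `N`-sets `A`, `B` are the two summands of `Fin N ⊕ Fin N`; for
`S : Finset (Fin N ⊕ Fin N)` the traces `S ∩ A`, `S ∩ B` are `S.toLeft`, `S.toRight`.
-/

set_option autoImplicit false

namespace Pool.Agent.Results.MP_0bba66_co.FloorFormulaFails

open Finset

/-- A family `F` of subsets of `A ∪ B` (`A`, `B` the two copies of `Fin N`) is semiintersecting with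
parameters `(k, N)`: every member has exactly `k` elements in each half, and for any two distinct
members exactly one of `S_A ∩ T_A`, `S_B ∩ T_B` is nonempty. -/
def IsSemiintersecting (k N : ℕ) (F : Finset (Finset (Fin N ⊕ Fin N))) : Prop :=
  (∀ S ∈ F, S.toLeft.card = k ∧ S.toRight.card = k) ∧
  ∀ S ∈ F, ∀ T ∈ F, S ≠ T →
    Xor (S.toLeft ∩ T.toLeft).Nonempty (S.toRight ∩ T.toRight).Nonempty

/-- `f(k, N)`: the largest cardinality of a semiintersecting family with parameters `(k, N)`. -/
noncomputable def f (k N : ℕ) : ℕ :=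
  sSup {m : ℕ | ∃ F : Finset (Finset (Fin N ⊕ Fin N)), IsSemiintersecting k N F ∧ F.card = m}

theorem upper (F : Finset (Finset (Fin 20 ⊕ Fin 20))) (hF : IsSemiintersecting 6 20 F) :
    F.card ≤ 9 := by
  classical
  by_contra hc
  push Not at hc
  obtain ⟨F', hsub, hcard⟩ := exists_subset_card_eq (s := F) (n := 10) (by omega)
  have e : Fin 10 ≃ F' := (F'.equivFinOfCardEq hcard).symm
  apply Pool.Agent.R456.Semi.Good.false (ι := Fin 10) (P := Fin 20) (Q := Fin 20)
    (A := fun i => (e i).1.toLeft) (B := fun i => (e i).1.toRight)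
  exact
    { cι := by simp
      cP := by simp
      cQ := by simp
      hA := fun i => (hF.1 _ (hsub (e i).2)).1
      hB := fun i => (hF.1 _ (hsub (e i).2)).2
      hx := fun i j hij => by
        apply hF.2 _ (hsub (e i).2) _ (hsub (e j).2)
        intro h
        exact hij (e.injective (Subtype.ext h)) }

/-- left part of the example: a line of slope `i / 3` in the doubled affine plane of order 3 -/
def lp (i : Fin 9) : Finset (Fin 20) :=
  univ.filter (fun p => p.1 < 18 ∧ (p.1 / 2) % 3 = ((i.1 / 3) * (p.1 / 6) + i.1 % 3) % 3)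

/-- right part of the example: a block of size 6 -/
def rp (i : Fin 9) : Finset (Fin 20) := univ.filter (fun p => p.1 / 6 = i.1 / 3)

def mem9 (i : Fin 9) : Finset (Fin 20 ⊕ Fin 20) := (lp i).disjSum (rp i)

theorem lp_card : ∀ i, (lp i).card = 6 := by decide
theorem rp_card : ∀ i, (rp i).card = 6 := by decide
theorem xor9 : ∀ i j, i ≠ j → Xor (lp i ∩ lp j).Nonempty (rp i ∩ rp j).Nonempty := by
  unfold Xor
  decide

theorem lp_inj : ∀ i j, lp i = lp j → i = j := by decide

theorem mem9_inj : Function.Injective mem9 := by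
  intro i j h
  have h1 := congrArg Finset.toLeft h
  simp only [mem9, toLeft_disjSum] at h1
  exact lp_inj i j h1

theorem lower : ∃ F : Finset (Finset (Fin 20 ⊕ Fin 20)), IsSemiintersecting 6 20 F ∧ F.card = 9 := by
  classical
  refine ⟨univ.image mem9, ⟨?_, ?_⟩, ?_⟩
  · intro S hS
    obtain ⟨i, _, rfl⟩ := mem_image.mp hS
    simp only [mem9, toLeft_disjSum, toRight_disjSum]
    exact ⟨lp_card i, rp_card i⟩
  · intro S hS T hT hST
    obtain ⟨i, _, rfl⟩ := mem_image.mp hS
    obtain ⟨j, _, rfl⟩ := mem_image.mp hT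
    simp only [mem9, toLeft_disjSum, toRight_disjSum]
    apply xor9
    rintro rfl
    exact hST rfl
  · rw [card_image_of_injective _ mem9_inj, card_univ]
    rfl

theorem f_eq : f 6 20 = 9 := by
  unfold f
  apply le_antisymm
  · apply csSup_le
    · obtain ⟨F, h1, h2⟩ := lower
      exact ⟨9, F, h1, h2⟩
    · rintro m ⟨F, h1, rfl⟩
      exact upper F h1
  · apply le_csSup
    · refine ⟨9, ?_⟩
      rintro m ⟨F, h1, rfl⟩
      exact upper F h1
    · obtain ⟨F, h1, h2⟩ := lower
      exact ⟨F, h1, h2⟩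

/-- The negated form of Q1 holds: there are positive `k, N` with `N ≤ k ^ 2` and
`f(k, N) ≠ ⌊N ⌊N/k⌋ / k⌋`; namely `f(6, 20) = 9`, while the formula gives `10`. -/
theorem result :
    (∃ k N : ℕ, 0 < k ∧ 0 < N ∧ N ≤ k ^ 2 ∧ f k N ≠ N * (N / k) / k) ∧
    f 6 20 = 9 ∧ 20 * (20 / 6) / 6 = 10 := by
  refine ⟨⟨6, 20, by norm_num, by norm_num, by norm_num, ?_⟩, f_eq, by norm_num⟩
  rw [f_eq]
  norm_num

end Pool.Agent.Results.MP_0bba66_co.FloorFormulaFails
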